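import Pool.Agent.helper92.ISO.SpecG

/-! Row PTU of the project ISO (MP_069684_lc): potential argument, upper. -/

set_option autoImplicit false

open Filter Topology

namespace Pool.Agent.ISO

open Pool.Agent.PB

theorem PTU_exp {x : ℝ} (h0 : 0 ≤ x) (h1 : x ≤ 1) : Real.exp x - 1 ≤ x + x ^ 2 := by
  have h := Real.abs_exp_sub_one_sub_id_le (x := x) (by rw [abs_of_nonneg h0]; exact h1)
  have := (abs_le.1 h).2
  linarith

open Classical in
theorem PTU_main {α ι : Type} [Fintype α] [Nonempty α] (hit : ι → α → Prop) (q lam : ℝ) (h0 : 0 < lam) (h1 : lam ≤ 1)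
    (H : ∀ μ : α → ℝ, (∀ a, 0 ≤ μ a) → ∑ a, μ a = 1 → ∃ i, ∑ a with hit i a, μ a ≤ q) (k : ℕ) :
    ∃ L : Fin k → ι, ∑ a, Real.exp (lam * ((Finset.univ.filter fun j => hit (L j) a).card : ℝ)) ≤
      Fintype.card α * Real.exp ((lam + lam ^ 2) * q * k) := by
  induction k with
  | zero =>
    refine ⟨Fin.elim0, ?_⟩
    simp
  | succ k ih =>
    obtain ⟨L, hL⟩ := ih
    obtain ⟨f, hf⟩ : ∃ f : α → ℝ, f = fun a => Real.exp (lam * ((Finset.univ.filter fun j => hit (L j) a).card : ℝ)) := ⟨_, rfl⟩
    have hfp : ∀ a, 0 < f a := fun a => by rw [hf]; exact Real.exp_pos _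
    obtain ⟨Φ, hΦ⟩ : ∃ x, x = ∑ a, f a := ⟨_, rfl⟩
    have hΦp : 0 < Φ := by
      rw [hΦ]
      exact Finset.sum_pos (fun a _ => hfp a) Finset.univ_nonempty
    obtain ⟨i, hi⟩ := H (fun a => f a / Φ) (fun a => (div_pos (hfp a) hΦp).le) (by
      rw [← Finset.sum_div, ← hΦ, div_self hΦp.ne'])
    rw [← Finset.sum_div] at hi
    have hq : 0 ≤ q := le_trans (div_nonneg (Finset.sum_nonneg fun a _ => (hfp a).le) hΦp.le) hi
    rw [div_le_iff₀ hΦp] at hi
    refine ⟨Fin.cons i L, ?_⟩
    have hc : ∀ a, Real.exp (lam * ((Finset.univ.filter fun j : Fin (k + 1) => hit ((Fin.cons i L : Fin (k + 1) → ι) j) a).card : ℝ)) =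
        f a + if hit i a then (Real.exp lam - 1) * f a else 0 := by
      intro a
      rw [Fin.card_filter_univ_succ]
      simp only [Fin.cons_zero, Fin.cons_succ]
      by_cases hia : hit i a
      · rw [if_pos hia, if_pos hia, hf]
        push_cast
        rw [mul_add, mul_one, Real.exp_add]
        ring
      · rw [if_neg hia, if_neg hia, hf, add_zero]
    rw [Finset.sum_congr rfl fun a _ => hc a, Finset.sum_add_distrib, ← Finset.sum_filter, ← Finset.mul_sum, ← hΦ]
    have e1 : 0 ≤ Real.exp lam - 1 := by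
      have := Real.add_one_le_exp lam
      linarith
    have e2 := PTU_exp h0.le h1
    have hL' : Φ ≤ Fintype.card α * Real.exp ((lam + lam ^ 2) * q * k) := by
      rw [hΦ, hf]
      exact hL
    have e3 : 1 + (lam + lam ^ 2) * q ≤ Real.exp ((lam + lam ^ 2) * q) := by
      have := Real.add_one_le_exp ((lam + lam ^ 2) * q)
      linarith
    calc Φ + (Real.exp lam - 1) * ∑ a with hit i a, f a ≤ Φ + (lam + lam ^ 2) * (q * Φ) := by
          have h2 : (Real.exp lam - 1) * ∑ a with hit i a, f a ≤ (Real.exp lam - 1) * (q * Φ) :=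
            mul_le_mul_of_nonneg_left hi e1
          have h3 : (Real.exp lam - 1) * (q * Φ) ≤ (lam + lam ^ 2) * (q * Φ) :=
            mul_le_mul_of_nonneg_right e2 (by positivity)
          linarith
      _ = Φ * (1 + (lam + lam ^ 2) * q) := by ring
      _ ≤ (Fintype.card α * Real.exp ((lam + lam ^ 2) * q * k)) * Real.exp ((lam + lam ^ 2) * q) :=
          mul_le_mul hL' e3 (by positivity) (by positivity)
      _ = Fintype.card α * Real.exp ((lam + lam ^ 2) * q * (k + 1 : ℕ)) := by
          rw [mul_assoc, ← Real.exp_add]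
          push_cast
          ring_nf

open Classical in
theorem PTU_proof : PTU_stmt := by
  intro α ι _ _ hit q lam k h0 h1 H
  obtain ⟨L, hL⟩ := PTU_main hit q lam h0 h1 H k
  refine ⟨L, fun a => ?_⟩
  have hcard : (0 : ℝ) < Fintype.card α := by exact_mod_cast Fintype.card_pos
  have h2 : Real.exp (lam * ((Finset.univ.filter fun j => hit (L j) a).card : ℝ)) ≤
      Fintype.card α * Real.exp ((lam + lam ^ 2) * q * k) := by
    refine le_trans ?_ hL
    exact Finset.single_le_sum (f := fun a => Real.exp (lam * ((Finset.univ.filter fun j => hit (L j) a).card : ℝ)))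
      (fun a _ => (Real.exp_pos _).le) (Finset.mem_univ a)
  have h3 := Real.log_le_log (Real.exp_pos _) h2
  rw [Real.log_exp, Real.log_mul hcard.ne' (Real.exp_pos _).ne', Real.log_exp] at h3
  have h4 : ((Finset.univ.filter fun j => hit (L j) a).card : ℝ) ≤
      (Real.log (Fintype.card α) + (lam + lam ^ 2) * q * k) / lam := by
    rw [le_div_iff₀ h0]
    linarith
  refine h4.trans (le_of_eq ?_)
  field_simp
  ring

end Pool.Agent.ISO
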